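import Pool.Agent.Helper75.PX.Stmts5

/-! # Row FINK of the project PX: finite fields (copy of helper52's FIN2) -/

set_option autoImplicit false

universe u

open Module TensorProduct

namespace Pool.Agent.Helper75.PX

theorem st_FINK : ST_FINK.{u} := by
  intro F K A _ _ _ _ _ _ _ hK
  refine ⟨⊤, A, inferInstance, inferInstance, ?_, ?_, inferInstance, ?_, ?_⟩
  · haveI : Finite (⊤ : IntermediateField F K) := inferInstance
    haveI : Module.Finite F (⊤ : IntermediateField F K) := Module.Finite.of_finite
    have halg : Algebra.IsAlgebraic F (⊤ : IntermediateField F K) :=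
      Algebra.IsAlgebraic.of_finite F _
    have h0 : Algebra.trdeg F (⊤ : IntermediateField F K) = 0 := trdeg_eq_zero
    rw [h0]
    exact zero_le
  · constructor
    intro x hx
    have h1 : x ∈ Subalgebra.center K A := by
      rw [Subalgebra.mem_center_iff] at hx ⊢
      exact hx
    have h2 := Algebra.IsCentral.out h1
    rw [Algebra.mem_bot] at h2 ⊢
    obtain ⟨k, hk⟩ := h2
    exact ⟨⟨k, IntermediateField.mem_top⟩, hk⟩
  · have h1 : finrank (⊤ : IntermediateField F K) K * finrank K A =
        finrank (⊤ : IntermediateField F K) A := finrank_mul_finrank _ _ _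
    rw [← h1, IntermediateField.finrank_top, one_mul]
  · let φ : (K ⊗[(⊤ : IntermediateField F K)] A) →ₐ[K] A :=
      Algebra.TensorProduct.lift (Algebra.ofId K A) (AlgHom.id _ A) (fun k a => by
        exact Algebra.commutes k a)
    have hφ : ∀ (k : K) (a : A), φ (k ⊗ₜ a) = k • a := by
      intro k a
      change algebraMap K A k * a = k • a
      rw [Algebra.smul_def]
    have hz : ∀ z : K ⊗[(⊤ : IntermediateField F K)] A, z = 1 ⊗ₜ (φ z) := by
      intro z
      induction z using TensorProduct.induction_on with
      | zero => rw [map_zero, TensorProduct.tmul_zero]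
      | tmul k a =>
        rw [hφ]
        have e1 : k = (⟨k, IntermediateField.mem_top⟩ : (⊤ : IntermediateField F K)) • (1 : K) := by
          change k = k * 1
          rw [mul_one]
        have e2 : k • a = (⟨k, IntermediateField.mem_top⟩ : (⊤ : IntermediateField F K)) • a := rfl
        rw [e2, ← TensorProduct.smul_tmul, ← e1]
      | add x y hx hy =>
        rw [map_add, TensorProduct.tmul_add, ← hx, ← hy]
    refine ⟨AlgEquiv.ofBijective φ ⟨?_, ?_⟩⟩
    · intro x y hxy
      rw [hz x, hz y, hxy]
    · intro a
      exact ⟨1 ⊗ₜ a, by rw [hφ, one_smul]⟩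

end Pool.Agent.Helper75.PX
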