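import Pool.Agent.Helper75.PX.Stmts6
import Pool.Agent.Helper95.PX.CL4

/-! # Row CL4b of the project PX (copy of helper95's CL4, characteristic two) -/

set_option autoImplicit false

namespace Pool.Agent.Helper75.PX

universe u

variable {F K A : Type u} [Field F] [Field K] [Algebra F K] [Ring A] [Algebra K A]

theorem CL4b_mem (L : IntermediateField F K) {α β z w : A} {a b p r : K} {v : Fin 4 → K}
    (h : D4b α β z w a b p r v) (ha : a ∈ L) (hb : b ∈ L) :
    ∀ i j k l : ℕ, k < 2 → l < 2 →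
      α ^ i * β ^ j * w ^ k * z ^ l ∈ Submodule.span L (Set.range (e4 α β z w)) := by
  intro i
  induction i using Nat.strong_induction_on with
  | _ i ih =>
    intro j k l hk hl
    by_cases hi : i < 2
    · clear ih
      induction j using Nat.strong_induction_on with
      | _ j jh =>
        by_cases hj : j < 2
        · exact Submodule.subset_span ⟨(⟨i, hi⟩, ⟨j, hj⟩, ⟨k, hk⟩, ⟨l, hl⟩), rfl⟩
        · obtain ⟨j', rfl⟩ : ∃ j', j = j' + 2 := ⟨j - 2, by omega⟩
          have h1 := CL4_smul L _ hb (jh j' (by omega))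
          have h2 := jh (j' + 1) (by omega)
          have e : α ^ i * β ^ (j'+2) * w ^ k * z ^ l
              = α ^ i * β ^ (j'+1) * w ^ k * z ^ l + b • (α ^ i * β ^ j' * w ^ k * z ^ l) := by
            rw [pow_add β, pow_two, h.hbb, mul_add, ← pow_succ,
              Algebra.algebraMap_eq_smul_one, mul_smul_comm, mul_one, mul_add, add_mul, add_mul,
              mul_smul_comm, smul_mul_assoc, smul_mul_assoc]
          rw [e]; exact Submodule.add_mem _ h2 h1
    · obtain ⟨i', rfl⟩ : ∃ i', i = i' + 2 := ⟨i - 2, by omega⟩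
      have h1 := CL4_smul L _ ha (ih i' (by omega) j k l hk hl)
      have h2 := ih (i' + 1) (by omega) j k l hk hl
      have e : α ^ (i'+2) * β ^ j * w ^ k * z ^ l
          = α ^ (i'+1) * β ^ j * w ^ k * z ^ l + a • (α ^ i' * β ^ j * w ^ k * z ^ l) := by
        rw [pow_add α, pow_two, h.haa, mul_add, ← pow_succ,
          Algebra.algebraMap_eq_smul_one, mul_smul_comm, mul_one, add_mul, add_mul, add_mul,
          smul_mul_assoc, smul_mul_assoc, smul_mul_assoc]
      rw [e]; exact Submodule.add_mem _ h2 h1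

theorem st_CL4b : ST_CL4b.{u} := by
  intro F K A _ _ _ _ _ L α β z w a b p r v _ h ha hb hp hr hv
  set S := Submodule.span L (Set.range (e4 α β z w)) with hS
  have hM := CL4b_mem L h ha hb
  rw [← hS] at hM
  have e4def : ∀ s, e4 α β z w s = α ^ (s.1 : ℕ) * β ^ (s.2.1 : ℕ) * w ^ (s.2.2.1 : ℕ) *
    z ^ (s.2.2.2 : ℕ) := fun s => rfl
  -- right multiplication by α
  have Rα : ∀ y ∈ S, y * α ∈ S := by
    apply CL4_R
    rintro ⟨i, j, k, l⟩
    rw [e4def]
    have h1 : w ^ (k : ℕ) * α = α * w ^ (k : ℕ) := (show Commute w α from h.hwa).pow_left k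
    have h2 : β ^ (j : ℕ) * α = α * β ^ (j : ℕ) := (show Commute β α from h.hab.symm).pow_left j
    have h0 := hM (i+1) j k l k.2 l.2
    have h00 := hM i j k l k.2 l.2
    have h3 : z ^ (l : ℕ) * α = α * z ^ (l : ℕ) ∨
        z ^ (l : ℕ) * α = α * z ^ (l : ℕ) + z ^ (l : ℕ) := by
      fin_cases l
      · left; simp
      · right
        have := h.hza
        rw [add_mul, one_mul] at this
        simpa using this
    have h4 : α ^ (i : ℕ) * β ^ (j : ℕ) * w ^ (k : ℕ) * (α * z ^ (l : ℕ))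
        = α ^ ((i : ℕ) + 1) * β ^ (j : ℕ) * w ^ (k : ℕ) * z ^ (l : ℕ) := by
      rw [← mul_assoc, mul_assoc _ (w ^ (k : ℕ)) α, h1, ← mul_assoc, mul_assoc _ (β ^ (j : ℕ)) α,
        h2, ← mul_assoc, ← pow_succ]
    rcases h3 with h3 | h3
    · rw [mul_assoc _ (z ^ (l : ℕ)) α, h3]
      simp only at h0 h4 ⊢
      rw [h4]; exact h0
    · rw [mul_assoc _ (z ^ (l : ℕ)) α, h3, mul_add]
      simp only at h0 h00 h4 ⊢
      rw [h4]; exact Submodule.add_mem _ h0 h00
  -- right multiplication by β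
  have Rβ : ∀ y ∈ S, y * β ∈ S := by
    apply CL4_R
    rintro ⟨i, j, k, l⟩
    rw [e4def]
    have h1 : z ^ (l : ℕ) * β = β * z ^ (l : ℕ) := (show Commute z β from h.hzb).pow_left l
    have h0 := hM i (j+1) k l k.2 l.2
    have h00 := hM i j k l k.2 l.2
    have h3 : w ^ (k : ℕ) * β = β * w ^ (k : ℕ) ∨
        w ^ (k : ℕ) * β = β * w ^ (k : ℕ) + w ^ (k : ℕ) := by
      fin_cases k
      · left; simp
      · right
        have := h.hwb
        rw [add_mul, one_mul] at this
        simpa using this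
    rcases h3 with h3 | h3
    · have : α ^ (i : ℕ) * β ^ (j : ℕ) * w ^ (k : ℕ) * z ^ (l : ℕ) * β
        = α ^ (i : ℕ) * β ^ ((j : ℕ) + 1) * w ^ (k : ℕ) * z ^ (l : ℕ) := by
        rw [mul_assoc _ (z ^ (l : ℕ)) β, h1, ← mul_assoc, mul_assoc _ (w ^ (k : ℕ)) β, h3,
          ← mul_assoc, mul_assoc _ (β ^ (j : ℕ)) β, ← pow_succ]
      simp only at this ⊢
      rw [this]; exact h0
    · have : α ^ (i : ℕ) * β ^ (j : ℕ) * w ^ (k : ℕ) * z ^ (l : ℕ) * β
        = α ^ (i : ℕ) * β ^ ((j : ℕ) + 1) * w ^ (k : ℕ) * z ^ (l : ℕ) +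
          α ^ (i : ℕ) * β ^ (j : ℕ) * w ^ (k : ℕ) * z ^ (l : ℕ) := by
        rw [mul_assoc _ (z ^ (l : ℕ)) β, h1, ← mul_assoc, mul_assoc _ (w ^ (k : ℕ)) β, h3,
          mul_add, add_mul, ← mul_assoc, mul_assoc _ (β ^ (j : ℕ)) β, ← pow_succ]
      simp only at this ⊢
      rw [this]; exact Submodule.add_mem _ h0 h00
  -- left multiplication
  have Lα : ∀ y ∈ S, α * y ∈ S := by
    apply CL4_Lc
    rintro ⟨i, j, k, l⟩
    rw [e4def]
    have : α * (α ^ (i : ℕ) * β ^ (j : ℕ) * w ^ (k : ℕ) * z ^ (l : ℕ))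
        = α ^ ((i : ℕ) + 1) * β ^ (j : ℕ) * w ^ (k : ℕ) * z ^ (l : ℕ) := by
      rw [← mul_assoc, ← mul_assoc, ← mul_assoc, ← pow_succ']
    simp only at this ⊢
    rw [this]; exact hM _ _ _ _ k.2 l.2
  have Lβ : ∀ y ∈ S, β * y ∈ S := by
    apply CL4_Lc
    rintro ⟨i, j, k, l⟩
    rw [e4def]
    have h2 : β * α ^ (i : ℕ) = α ^ (i : ℕ) * β := (show Commute β α from h.hab.symm).pow_right i
    have : β * (α ^ (i : ℕ) * β ^ (j : ℕ) * w ^ (k : ℕ) * z ^ (l : ℕ))
        = α ^ (i : ℕ) * β ^ ((j : ℕ) + 1) * w ^ (k : ℕ) * z ^ (l : ℕ) := by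
      rw [← mul_assoc, ← mul_assoc, ← mul_assoc, h2, mul_assoc _ β, ← pow_succ']
    simp only at this ⊢
    rw [this]; exact hM _ _ _ _ k.2 l.2
  have LU : ∀ v' : Fin 4 → K, (∀ k, v' k ∈ L) → ∀ y ∈ S, uE α β v' * y ∈ S :=
    fun v' hv' => CL4_uE L hv' Lα Lβ
  -- right multiplication by z
  have Rz : ∀ y ∈ S, y * z ∈ S := by
    apply CL4_R
    rintro ⟨i, j, k, l⟩
    rw [e4def]
    fin_cases l
    · have h0 := hM i j k 1 k.2 (by norm_num)
      simpa using h0
    · have h0 := hM i j k 0 k.2 (by norm_num)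
      have h1 := CL4_smul L _ hp (Rβ _ h0)
      have : α ^ (i : ℕ) * β ^ (j : ℕ) * w ^ (k : ℕ) * z ^ 1 * z
          = p • (α ^ (i : ℕ) * β ^ (j : ℕ) * w ^ (k : ℕ) * z ^ 0 * β) := by
        rw [pow_one, pow_zero, mul_one, mul_assoc _ z z, h.hzz, mul_smul_comm]
      rw [← this] at h1
      simpa using h1
  -- right multiplication by w
  have Rw : ∀ y ∈ S, y * w ∈ S := by
    apply CL4_R
    rintro ⟨i, j, k, l⟩
    rw [e4def]
    fin_cases l
    · fin_cases k
      · have h0 := hM i j 1 0 (by norm_num) (by norm_num)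
        simpa using h0
      · have h0 := hM i j 0 0 (by norm_num) (by norm_num)
        have h1 := CL4_smul L _ hr (Rα _ h0)
        have : α ^ (i : ℕ) * β ^ (j : ℕ) * w ^ 1 * z ^ 0 * w
            = r • (α ^ (i : ℕ) * β ^ (j : ℕ) * w ^ 0 * z ^ 0 * α) := by
          rw [pow_one, pow_zero, pow_zero, mul_one, mul_one, mul_one, mul_assoc _ w w, h.hww,
            mul_smul_comm]
        rw [← this] at h1
        simpa using h1
    · -- l = 1
      have cU : ∀ v' : Fin 4 → K, ∀ i j : ℕ,
          α ^ i * β ^ j * uE α β v' = uE α β v' * (α ^ i * β ^ j) := by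
        intro v' i j
        have c1 : Commute (α ^ i * β ^ j) α :=
          (Commute.refl α).pow_left i |>.mul_left ((show Commute β α from h.hab.symm).pow_left j)
        have c2 : Commute (α ^ i * β ^ j) β :=
          ((show Commute α β from h.hab).pow_left i).mul_left ((Commute.refl β).pow_left j)
        have c3 : Commute (α ^ i * β ^ j) (uE α β v') := by
          unfold uE
          exact ((((Commute.one_right _).smul_right _).add_right (c1.smul_right _)).add_right
            (c2.smul_right _)).add_right ((c1.mul_right c2).smul_right _)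
        exact c3
      fin_cases k
      · have h0 := hM i j 1 1 (by norm_num) (by norm_num)
        have h1 := LU v hv _ h0
        have : α ^ (i : ℕ) * β ^ (j : ℕ) * w ^ 0 * z ^ 1 * w
            = uE α β v * (α ^ (i : ℕ) * β ^ (j : ℕ) * w ^ 1 * z ^ 1) := by
          rw [pow_one, pow_one, pow_zero, mul_one, mul_assoc _ z w, h.hzw, ← mul_assoc, cU]
          simp only [mul_assoc]
        rw [← this] at h1
        simpa using h1
      · have h0 := hM i j 0 1 (by norm_num) (by norm_num)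
        have h1 := CL4_smul L _ hr (Lα _ h0)
        have hv' : ∀ k, (![v 0 + v 2, v 1 + v 3, v 2, v 3] : Fin 4 → K) k ∈ L := by
          intro k
          fin_cases k
          · exact add_mem (hv 0) (hv 2)
          · exact add_mem (hv 1) (hv 3)
          · exact hv 2
          · exact hv 3
        have h2 := LU _ hv' _ h1
        have hwu : w * uE α β v = uE α β ![v 0 + v 2, v 1 + v 3, v 2, v 3] * w := by
          unfold uE
          simp only [Matrix.cons_val_zero, Matrix.cons_val_one, Matrix.cons_val]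
          simp only [mul_add, add_mul, mul_smul_comm, smul_mul_assoc, mul_one, one_mul, add_smul]
          rw [h.hwa, h.hwb, ← mul_assoc w α β, h.hwa, mul_assoc α w β, h.hwb]
          simp only [add_mul, mul_add, one_mul, smul_add, mul_assoc]
          abel
        have hww' : α ^ (i : ℕ) * β ^ (j : ℕ) * (r • α) * z
            = r • (α * (α ^ (i : ℕ) * β ^ (j : ℕ) * w ^ 0 * z ^ 1)) := by
          rw [pow_one, pow_zero, mul_one, mul_smul_comm, smul_mul_assoc]
          congr 1
          rw [mul_assoc _ (β ^ (j : ℕ)) α, show β ^ (j : ℕ) * α = α * β ^ (j : ℕ) from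
            (show Commute β α from h.hab.symm).pow_left j, ← mul_assoc, ← pow_succ,
            ← mul_assoc α, ← mul_assoc α, ← pow_succ']
        have : α ^ (i : ℕ) * β ^ (j : ℕ) * w ^ 1 * z ^ 1 * w
            = uE α β ![v 0 + v 2, v 1 + v 3, v 2, v 3] *
              (r • (α * (α ^ (i : ℕ) * β ^ (j : ℕ) * w ^ 0 * z ^ 1))) := by
          rw [← hww', ← h.hww, pow_one, pow_one, mul_assoc _ z w, h.hzw, ← mul_assoc,
            mul_assoc _ w (uE α β v), hwu, ← mul_assoc (α ^ (i : ℕ) * β ^ (j : ℕ)), cU]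
          simp only [mul_assoc]
        rw [← this] at h2
        simpa using h2
  -- conclusion
  intro s t
  have hs : e4 α β z w s ∈ S := Submodule.subset_span ⟨s, rfl⟩
  have hpow : ∀ x : A, (∀ y ∈ S, y * x ∈ S) → ∀ n : ℕ, ∀ y ∈ S, y * x ^ n ∈ S := by
    intro x hx n
    induction n with
    | zero => intro y hy; simpa using hy
    | succ n ih => intro y hy; rw [pow_succ, ← mul_assoc]; exact hx _ (ih y hy)
  rw [e4def t, ← mul_assoc, ← mul_assoc, ← mul_assoc]
  exact hpow z Rz _ _ (hpow w Rw _ _ (hpow β Rβ _ _ (hpow α Rα _ _ hs)))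

end Pool.Agent.Helper75.PX
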